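import Mathlib
import Pool.Agent.Lib.SSZ.Growth

/-! Tail bound for the smallest singular value of a Gaussian perturbation, with an explicit factor
depending on the smallest singular value of the centre. -/

set_option autoImplicit false

open MeasureTheory ProbabilityTheory
open scoped ENNReal

namespace Pool.Agent.Results.MP_30e781_pr.CentreDependence

/-- The probability that the smallest singular value of `A + σ G` is at most `1 / x`, where `G` is a
square matrix of order `n + 1` with independent standard Gaussian entries. -/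
noncomputable def tailProb (n : ℕ) (A : Matrix (Fin (n + 1)) (Fin (n + 1)) ℝ) (σ x : ℝ) : ℝ≥0∞ :=
  (Measure.pi fun _ : Fin (n + 1) => Measure.pi fun _ : Fin (n + 1) => gaussianReal 0 1)
    {G : Fin (n + 1) → Fin (n + 1) → ℝ | ∃ u : Fin (n + 1) → ℝ, ∑ i, u i ^ 2 = 1 ∧
      x ^ 2 * ∑ i, ((A + σ • Matrix.of G).mulVec u) i ^ 2 ≤ 1}

/-- The mean of the Euclidean norm of a standard Gaussian vector of `ℝ ^ (n + 1)`. -/
noncomputable def meanNorm (n : ℕ) : ℝ :=
  ∫ z : Fin (n + 1) → ℝ, √(∑ i, z i ^ 2)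
    ∂(Measure.pi fun _ : Fin (n + 1) => gaussianReal 0 1)

/-- The mean of `exp (t y₀² / 2)` over the unit vectors `y = z / |z|` of `ℝ ^ (n + 2)`, where `z` is
a standard Gaussian vector. -/
noncomputable def sphMean (n : ℕ) (t : ℝ) : ℝ :=
  ∫ z : Fin (n + 2) → ℝ, Real.exp (t * (z 0 ^ 2 / (2 * ∑ i, z i ^ 2)))
    ∂(Measure.pi fun _ : Fin (n + 2) => gaussianReal 0 1)

theorem result (n : ℕ) (A : Matrix (Fin (n + 1)) (Fin (n + 1)) ℝ) (σ x s : ℝ)
    (hσ : 0 < σ) (hx : 0 < x) (hs : 0 ≤ s)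
    (hA : ∀ v : Fin (n + 1) → ℝ, s ^ 2 * ∑ i, v i ^ 2 ≤ ∑ i, (A.mulVec v) i ^ 2) :
    (√((n : ℝ) + 1) < x * σ →
      tailProb n A σ x ≤ ENNReal.ofReal
        (meanNorm n / (x * σ) / sphMean n ((1 - 1 / ((n : ℝ) + 1)) * (s / σ) ^ 2))) ∧
    ((n : ℝ) + 2 + (s / σ) ^ 2 < (x * σ) ^ 2 →
      tailProb n A σ x ≤ ENNReal.ofReal (meanNorm n / (x * σ) / sphMean n ((s / σ) ^ 2))) ∧
    meanNorm n ≤ √((n : ℝ) + 1) ∧
    (∀ t : ℝ, 0 ≤ t → Real.exp (t / (2 * ((n : ℝ) + 2))) ≤ sphMean n t ∧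
      Real.exp (t / 2) / (5 * √(1 + t) ^ (n + 1)) ≤ sphMean n t) := by
  have hxσ : 0 < x * σ := mul_pos hx hσ
  refine ⟨?_, ?_, ?_, ?_⟩
  · intro h
    have hn : (0 : ℝ) < (n : ℝ) + 1 := by positivity
    have hT2 : (1 / (x * σ)) ^ 2 * ((n + 1 : ℕ) : ℝ) < 1 := by
      have h1 : (n : ℝ) + 1 < (x * σ) ^ 2 := (Real.sqrt_lt' hxσ).mp h
      rw [div_pow, one_pow, one_div, inv_mul_lt_iff₀ (by positivity)]
      push_cast
      linarith
    have hθ := Pool.Agent.SSZ.theta_nonneg n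
    have h1 := Pool.Agent.SSZ.final_form hθ A hσ hx hs hA
      (fun c hc0 hc => Pool.Agent.SSZ.ev_one (by positivity) hT2 c hc0 hc)
    push_cast at h1
    exact h1
  · intro h
    have hT2 : (1 / (x * σ)) ^ 2 * (((n + 1 : ℕ) : ℝ) + 1 + (s / σ) ^ 2) < 1 := by
      rw [div_pow, one_pow, one_div, inv_mul_lt_iff₀ (by positivity)]
      push_cast
      linarith
    have h1 := Pool.Agent.SSZ.final_form zero_le_one A hσ hx hs hA
      (fun c hc0 hc => Pool.Agent.SSZ.ev_two (by positivity) hT2 c hc0 hc)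
    rw [one_mul] at h1
    exact h1
  · have h2 := Pool.Agent.SSZ.lint_norm n
    rw [Pool.Agent.SSZ.lint_norm_eq, ENNReal.ofReal_le_ofReal_iff (Real.sqrt_nonneg _)] at h2
    exact h2
  · intro t ht
    constructor
    · have h1 := Pool.Agent.SSZ.Ph_jensen n t
      rw [Pool.Agent.SSZ.Ph_eq_int,
        ENNReal.ofReal_le_ofReal_iff (Pool.Agent.SSZ.int_pos n ht).le] at h1
      exact h1
    · have h1 := Pool.Agent.SSZ.Ph_growth n ht
      rw [Pool.Agent.SSZ.Ph_eq_int,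
        ENNReal.ofReal_le_ofReal_iff (Pool.Agent.SSZ.int_pos n ht).le] at h1
      refine le_trans (le_of_eq ?_) h1
      have hr : 0 < √(1 + t) := Real.sqrt_pos.mpr (by positivity)
      rw [inv_pow]
      field_simp

end Pool.Agent.Results.MP_30e781_pr.CentreDependence
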