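import Pool.Agent.Lib.SSTW.Meas

/-!
# The optimal constant for the singular values of `A + BG`

`G` is an `n × n` matrix with independent standard Gaussian entries, `A` is any real matrix, `B` is
any invertible one, and `K` is the mean of `|B⁻¹ z|`, `z` a standard Gaussian vector.  The expected
number of singular values of `A + BG` in `[a, b]` is at most `(b - a) K`, and no smaller constant
will do, since the smallest singular value of `BG` is at most `t` with probability at least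
`t K - (t K)² / 2`.
-/

set_option autoImplicit false

namespace Pool.Agent.Results.MP_30e781_pr.ExpectedCount

open MeasureTheory ProbabilityTheory Set Pool.Agent.SSTW
open scoped ENNReal

theorem inv_event {n : ℕ} (M : Matrix (Fin n) (Fin n) ℝ) {x : ℝ} (hx : 0 < x)
    (h : ∃ v : Fin n → ℝ, ∑ i, v i ^ 2 ≤ 1 ∧ x ^ 2 ≤ ∑ i, (M⁻¹.mulVec v i) ^ 2) :
    ∃ v : Fin n → ℝ, ∑ i, v i ^ 2 = 1 ∧ ∑ i, (M.mulVec v i) ^ 2 ≤ (1 / x) ^ 2 := by
  obtain ⟨v, hv, hvx⟩ := h
  have hM : IsUnit M.det := by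
    by_contra hM
    rw [Matrix.nonsing_inv_apply_not_isUnit M hM, Matrix.zero_mulVec] at hvx
    simp only [Pi.zero_apply, ne_eq, OfNat.ofNat_ne_zero, not_false_eq_true, zero_pow,
      Finset.sum_const_zero] at hvx
    have : 0 < x ^ 2 := by positivity
    linarith
  set w := M⁻¹.mulVec v with hw
  have hMw : M.mulVec w = v := by
    rw [hw, Matrix.mulVec_mulVec, Matrix.mul_nonsing_inv _ hM, Matrix.one_mulVec]
  set s := ∑ i, w i ^ 2 with hs
  have hx2 : 0 < x ^ 2 := by positivity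
  have hs0 : 0 < s := lt_of_lt_of_le hx2 hvx
  have hsq : Real.sqrt s ^ 2 = s := Real.sq_sqrt hs0.le
  have hsq0 : 0 < Real.sqrt s := Real.sqrt_pos.2 hs0
  refine ⟨(Real.sqrt s)⁻¹ • w, ?_, ?_⟩
  · simp only [Pi.smul_apply, smul_eq_mul, mul_pow, ← Finset.mul_sum]
    rw [← hs, inv_pow, hsq, inv_mul_cancel₀ hs0.ne']
  · rw [Matrix.mulVec_smul, hMw]
    simp only [Pi.smul_apply, smul_eq_mul, mul_pow, ← Finset.mul_sum]
    rw [inv_pow, hsq, div_pow, one_pow, one_div]
    calc s⁻¹ * ∑ i, v i ^ 2 ≤ s⁻¹ * 1 := by gcongr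
      _ = s⁻¹ := mul_one _
      _ ≤ (x ^ 2)⁻¹ := by gcongr

/-- Let `G` be an `n × n` matrix with independent standard Gaussian entries, `A` any real matrix,
`B` any invertible real matrix and `K = E|B⁻¹ z|`.  The expected number of singular values of
`A + BG` in `[a, b]`, counted with multiplicity, is at most `(b - a) K` (the number is a measurable
function of `G` up to a null set, so that the Lebesgue integral is its expectation); the smallest singular value
is at most `t` with probability at most `t K`; the norm of the inverse is at least `x` with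
probability at most `K / x`.  The constant is optimal: the smallest singular value of `BG` is at
most `t` with probability at least `t K - (t K)² / 2`.  Moreover `√(2/π) F ≤ K ≤ F`, where `F` is
the Frobenius norm of `B⁻¹`. -/
theorem result (n : ℕ) (A B : Matrix (Fin n) (Fin n) ℝ) (hB : B.det ≠ 0) :
    (∀ a b : ℝ, a ≤ b →
      AEMeasurable (fun G => (singCount (A + B * Matrix.of G) a b : ℝ≥0∞)) (gaussMatrix n) ∧
      ∫⁻ G, (singCount (A + B * Matrix.of G) a b : ℝ≥0∞) ∂(gaussMatrix n)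
        ≤ ENNReal.ofReal ((b - a) * meanInv B)) ∧
    (∀ t : ℝ, 0 ≤ t →
      gaussMatrix n {G | ∃ v : Fin n → ℝ, ∑ i, v i ^ 2 = 1 ∧
          ∑ i, ((A + B * Matrix.of G).mulVec v i) ^ 2 ≤ t ^ 2}
        ≤ ENNReal.ofReal (t * meanInv B)) ∧
    (∀ x : ℝ, 0 < x →
      gaussMatrix n {G | ∃ v : Fin n → ℝ, ∑ i, v i ^ 2 ≤ 1 ∧
          x ^ 2 ≤ ∑ i, ((A + B * Matrix.of G)⁻¹.mulVec v i) ^ 2}
        ≤ ENNReal.ofReal (meanInv B / x)) ∧
    (∀ t : ℝ, 0 ≤ t →
      ENNReal.ofReal (t * meanInv B - (t * meanInv B) ^ 2 / 2)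
        ≤ gaussMatrix n {G | ∃ v : Fin n → ℝ, ∑ i, v i ^ 2 = 1 ∧
          ∑ i, ((B * Matrix.of G).mulVec v i) ^ 2 ≤ t ^ 2}) ∧
    Real.sqrt (2 / Real.pi) * Real.sqrt (∑ i, ∑ j, (B⁻¹ i j) ^ 2) ≤ meanInv B ∧
    meanInv B ≤ Real.sqrt (∑ i, ∑ j, (B⁻¹ i j) ^ 2) := by
  have key : (∀ a b : ℝ, a ≤ b →
      ∫⁻ G, (singCount (A + B * Matrix.of G) a b : ℝ≥0∞) ∂(gaussMatrix n)
        ≤ ENNReal.ofReal ((b - a) * meanInv B)) ∧
    (∀ t : ℝ, 0 ≤ t →
      gaussMatrix n {G | ∃ v : Fin n → ℝ, ∑ i, v i ^ 2 = 1 ∧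
          ∑ i, ((A + B * Matrix.of G).mulVec v i) ^ 2 ≤ t ^ 2}
        ≤ ENNReal.ofReal (t * meanInv B)) := by
    rcases Nat.eq_zero_or_pos n with h0 | h0
    · subst h0
      refine ⟨fun a b _ => ?_, fun t _ => ?_⟩
      · have : ∀ G : Fin 0 → Fin 0 → ℝ, singCount (A + B * Matrix.of G) a b = 0 := by
          intro G
          unfold singCount
          rw [Matrix.charpoly, Matrix.det_isEmpty, Polynomial.roots_one]
          simp
        simp_rw [this]
        simp
      · have : {G : Fin 0 → Fin 0 → ℝ | ∃ v : Fin 0 → ℝ, ∑ i, v i ^ 2 = 1 ∧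
          ∑ i, ((A + B * Matrix.of G).mulVec v i) ^ 2 ≤ t ^ 2} = ∅ := by
          ext G
          simp
        rw [this]
        simp
    · have : NeZero n := ⟨h0.ne'⟩
      have hK : 0 ≤ K0 (op B⁻¹) := integral_nonneg fun _ => norm_nonneg _
      refine ⟨fun a b _ => count_mult A B hB a b, fun t ht => ?_⟩
      have h1 := small_matrix A B hB ht
      rwa [← ENNReal.ofReal_mul hK, K0_eq, mul_comm] at h1
  refine ⟨fun a b hab => ⟨aemeasurable_singCount A B hB a b, key.1 a b hab⟩, key.2,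
    fun x hx => ?_, fun t ht => small_lower B hB ht, meanInv_ge B,
    meanInv_le B⟩
  refine le_trans (measure_mono ?_) ((key.2 (1 / x) (by positivity)).trans_eq ?_)
  · intro G hG
    exact inv_event _ hx hG
  · congr 1
    field_simp

end Pool.Agent.Results.MP_30e781_pr.ExpectedCount
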